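import Pool.Agent.Y644.JW.Stm

/-!
# Components left when a set of vertices is removed from a tree
-/

set_option autoImplicit false

namespace Pool.Agent.Y371.JW

open Finset Classical

/-- number of ordered pairs of adjacent vertices -/
noncomputable def np {W : Type} (H : SimpleGraph W) : ℕ := Nat.card {p : W × W // H.Adj p.1 p.2}

theorem np_eq {W : Type} [Fintype W] (H : SimpleGraph W) : np H = 2 * #H.edgeFinset := by
  rw [SimpleGraph.two_mul_card_edgeFinset, np, Nat.card_eq_fintype_card, Fintype.card_subtype]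

theorem np_connected {W : Type} [Fintype W] (H : SimpleGraph W) (h : H.Connected) :
    2 * Fintype.card W ≤ np H + 2 := by
  have h1 := h.card_vert_le_card_edgeSet_add_one
  rw [Nat.card_eq_fintype_card, Nat.card_eq_fintype_card, ← SimpleGraph.edgeFinset_card] at h1
  rw [np_eq]
  omega

theorem np_tree {W : Type} [Fintype W] (H : SimpleGraph W) (h : H.IsTree) :
    np H + 2 = 2 * Fintype.card W := by
  have h1 := h.card_edgeFinset
  rw [np_eq]
  omega

theorem np_mono {W : Type} [Fintype W] (H K : SimpleGraph W) (h : H ≤ K) : np H ≤ np K := by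
  unfold np
  refine Nat.card_le_card_of_injective (fun p => ⟨p.1, h p.2⟩) ?_
  intro p q hpq
  simpa [Subtype.ext_iff] using hpq

theorem np_acyclic {W : Type} [Fintype W] [Nonempty W] (H : SimpleGraph W) (h : H.IsAcyclic) :
    np H + 2 ≤ 2 * Fintype.card W := by
  obtain ⟨T, hT1, hT2, hT3⟩ :=
    (SimpleGraph.connected_top (V := W)).exists_isTree_le_of_le_of_isAcyclic (le_top : H ≤ ⊤) h
  rw [← np_tree T (by assumption)]
  exact Nat.add_le_add_right (np_mono _ _ (by assumption)) 2

theorem np_comp {W : Type} [Fintype W] (H : SimpleGraph W) :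
    2 * Fintype.card W ≤ np H + 2 * Nat.card H.ConnectedComponent := by
  have h1 : Fintype.card W = ∑ C : H.ConnectedComponent, Fintype.card C.supp := by
    rw [← Fintype.card_sigma]
    exact Fintype.card_congr (Equiv.sigmaFiberEquiv H.connectedComponentMk).symm
  have h2 : ∑ C : H.ConnectedComponent, np C.toSimpleGraph ≤ np H := by
    have h3 : ∑ C : H.ConnectedComponent, np C.toSimpleGraph =
        Nat.card (Σ C : H.ConnectedComponent,
          {p : C × C // C.toSimpleGraph.Adj p.1 p.2}) := by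
      rw [Nat.card_sigma]
      rfl
    rw [h3, np]
    refine Nat.card_le_card_of_injective (fun x => ⟨(x.2.1.1.1, x.2.1.2.1), x.2.2⟩) ?_
    rintro ⟨C, ⟨⟨⟨x, hx⟩, ⟨y, hy⟩⟩, h⟩⟩ ⟨C', ⟨⟨⟨x', hx'⟩, ⟨y', hy'⟩⟩, h'⟩⟩ he
    simp only [Subtype.mk.injEq, Prod.mk.injEq] at he
    obtain ⟨rfl, rfl⟩ := he
    have hC : C = C' := by
      have e1 : H.connectedComponentMk x = C := hx
      have e2 : H.connectedComponentMk x = C' := hx'
      rw [← e1, ← e2]
    subst hC
    rfl
  have h4 : 2 * Fintype.card W ≤ ∑ C : H.ConnectedComponent, (np C.toSimpleGraph + 2) := by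
    rw [h1, mul_sum]
    refine sum_le_sum fun C _ => ?_
    have h5 := np_connected C.toSimpleGraph C.connected_toSimpleGraph
    have h6 : Fintype.card C.supp = Fintype.card C := Fintype.card_congr (Equiv.refl _)
    rw [h6]
    exact h5
  rw [sum_add_distrib] at h4
  simp only [sum_const, card_univ, smul_eq_mul] at h4
  rw [Nat.card_eq_fintype_card]
  omega

/-- indicator of adjacency -/
noncomputable def e {V : Type} (T : SimpleGraph V) (u v : V) : ℕ := if T.Adj u v then 1 else 0

theorem e_comm {V : Type} (T : SimpleGraph V) (u v : V) : e T u v = e T v u := by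
  unfold e
  simp only [T.adj_comm]

theorem dg_eq {V : Type} [Fintype V] (T : SimpleGraph V) (v : V) :
    Pool.Agent.Y644.JW.dg T v = ∑ u, e T v u := by
  unfold Pool.Agent.Y644.JW.dg e
  rw [← card_filter, Set.ncard_eq_toFinset_card']
  congr 1
  ext u
  simp

theorem np_sum {W : Type} [Fintype W] (H : SimpleGraph W) : np H = ∑ u, ∑ v, e H u v := by
  unfold np e
  rw [Nat.card_eq_fintype_card, Fintype.card_subtype, card_filter, ← univ_product_univ,
    sum_product]

theorem np_induce {V : Type} [Fintype V] (T : SimpleGraph V) (X : Finset V) (s : Set V)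
    (hs : s = (X : Set V)) : np (T.induce s) = ∑ u ∈ X, ∑ v ∈ X, e T u v := by
  subst hs
  rw [np_sum]
  have h1 : ∀ f : V → ℕ, ∑ u : (X : Set V), f u = ∑ u ∈ X, f u := fun f => by
    rw [← sum_coe_sort X f]
    rfl
  rw [← h1 fun u => ∑ v ∈ X, e T u v]
  refine sum_congr rfl fun u _ => ?_
  rw [← h1 fun v => e T u v]
  refine sum_congr rfl fun v _ => ?_
  simp [e]

theorem cnt : Pool.Agent.Y644.JW.S_CNT := by
  intro V _ T hT S hS
  have hd : ∀ v, Pool.Agent.Y644.JW.dg T v = ∑ u ∈ S, e T v u + ∑ u ∈ Sᶜ, e T v u := fun v => by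
    rw [dg_eq, sum_add_sum_compl]
  have h1 : np T = (∑ u ∈ S, (∑ v ∈ S, e T u v + ∑ v ∈ Sᶜ, e T u v)) +
      ∑ u ∈ Sᶜ, (∑ v ∈ S, e T u v + ∑ v ∈ Sᶜ, e T u v) := by
    rw [np_sum, ← sum_add_sum_compl S]
    congr 1 <;> refine sum_congr rfl fun u _ => ?_ <;> rw [sum_add_sum_compl]
  have h2 := np_tree T hT
  obtain ⟨x, hx⟩ := hS
  have : Nonempty (S : Set V) := ⟨⟨x, hx⟩⟩
  have h3 := np_acyclic (T.induce (S : Set V)) (hT.isAcyclic.induce _)
  rw [np_induce T S _ rfl] at h3
  have h4 := np_comp (T.induce ((S : Set V)ᶜ))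
  rw [np_induce T Sᶜ _ (by simp)] at h4
  have h5 : ∑ u ∈ Sᶜ, ∑ v ∈ S, e T u v = ∑ u ∈ S, ∑ v ∈ Sᶜ, e T u v := by
    rw [sum_comm]
    exact sum_congr rfl fun u _ => sum_congr rfl fun v _ => e_comm T v u
  have h6 : Fintype.card (S : Set V) = S.card := by simp
  have h7 : Fintype.card ((S : Set V)ᶜ : Set V) + S.card = Fintype.card V := by
    have h8 : Fintype.card ((S : Set V)ᶜ : Set V) = Sᶜ.card := by
      rw [← Fintype.card_coe]
      exact Fintype.card_congr (Equiv.subtypeEquivRight (by simp))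
    rw [h8, card_compl]
    exact Nat.sub_add_cancel (card_le_univ S)
  simp only [hd, Pool.Agent.Y644.JW.om]
  rw [sum_add_distrib] at h1 ⊢
  rw [sum_add_distrib] at h1
  have h9 : Fintype.card (S : Set V) = S.card := h6
  omega

end Pool.Agent.Y371.JW
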